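import Pool.Agent.Helper99.SI.StA

set_option autoImplicit false

/-!
# Project SI, module A8
-/

namespace Pool.Agent.Helper41.SI

open Pool.Agent.Helper99.SI

theorem Phi_apply {n : ℕ} {L : Type} [Ring L] [Algebra ℂ L] [StarRing L] (D : Sys n L) (t : ℂ) (y : L) :
    D.Phi t y = ∑ i, star (D.x i) * y * D.b.ev t (D.x i) := by
  unfold Sys.Phi
  rw [LinearMap.sum_apply]
  refine Finset.sum_congr rfl fun i _ => ?_
  rw [LinearMap.comp_apply, LinearMap.mulLeft_apply, LinearMap.mulRight_apply, mul_assoc]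

theorem w_cons {n : ℕ} {L : Type} [Ring L] [Algebra ℂ L] [StarRing L] (D : Sys n L) {k : ℕ} (i : Fin n)
    (κ : Fin k → Fin n) :
    D.w (List.ofFn (Fin.cons i κ : Fin (k + 1) → Fin n)) = D.x i * D.w (List.ofFn κ) := by
  have h : List.ofFn (Fin.cons i κ : Fin (k + 1) → Fin n) = i :: List.ofFn κ := by
    rw [List.ofFn_succ]
    simp
  rw [h]
  unfold Sys.w wd
  rw [List.map_cons, List.prod_cons]

theorem hA8 (h1 : StA0) (h2 : StA1) : StA8 := by
  intro n L _ _ _ _ D t k y ht
  refine ⟨Phi_apply D t, ?_⟩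
  obtain ⟨-, hmul, hone, -⟩ := h1 L D.b
  induction k generalizing y with
  | zero =>
    rw [pow_zero, Fintype.sum_unique]
    have h3 : D.w (List.ofFn (default : Fin 0 → Fin n)) = 1 := by
      unfold Sys.w wd
      simp
    rw [h3, star_one, one_mul, hone, mul_one]
    rfl
  | succ k ih =>
    rw [pow_succ, Module.End.mul_apply, ih, Phi_apply]
    rw [← (Fin.consEquiv (fun _ : Fin (k + 1) => Fin n)).sum_comp, Fintype.sum_prod_type_right]
    refine Finset.sum_congr rfl fun κ _ => ?_
    rw [Finset.mul_sum, Finset.sum_mul]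
    refine Finset.sum_congr rfl fun i _ => ?_
    have h4 : D.w (List.ofFn ((Fin.consEquiv (fun _ : Fin (k + 1) => Fin n)) (i, κ))) =
        D.x i * D.w (List.ofFn κ) := w_cons D i κ
    rw [h4, star_mul, hmul t _ _ ht]
    simp only [mul_assoc]

end Pool.Agent.Helper41.SI
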