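import Pool.Agent.Helper99.SI.StD

set_option autoImplicit false

/-!
# Project SI, module D3: the operator Phi^flat
-/

namespace Pool.Agent.Helper41.SI

open Pool.Agent.Helper99.SI

/-- Band matrices (the hypotheses of D1). -/
def Bd {ι ι' : Type} (a : ι → (ι' →₀ ℂ)) : Prop :=
  ∃ (K : ℕ) (C : ℝ), 0 ≤ C ∧ (∀ i, (a i).support.card ≤ K) ∧
    (∀ k, {i | a i k ≠ 0}.Finite ∧ {i | a i k ≠ 0}.ncard ≤ K) ∧ (∀ i k, ‖a i k‖ ≤ C)

lemma Bd.zero {ι ι' : Type} : Bd (fun _ : ι => (0 : ι' →₀ ℂ)) := by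
  refine ⟨0, 0, le_rfl, fun i => by simp, fun k => ?_, fun i k => by simp⟩
  simp

lemma Bd.add {ι ι' : Type} {a b : ι → (ι' →₀ ℂ)} (ha : Bd a) (hb : Bd b) :
    Bd (fun i => a i + b i) := by
  classical
  obtain ⟨K, C, hC, h1, h2, h3⟩ := ha
  obtain ⟨K', C', hC', h1', h2', h3'⟩ := hb
  refine ⟨K + K', C + C', by positivity, fun i => ?_, fun k => ?_, fun i k => ?_⟩
  · exact (Finset.card_le_card Finsupp.support_add).trans
      ((Finset.card_union_le _ _).trans (add_le_add (h1 i) (h1' i)))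
  · have hs : {i | (a i + b i) k ≠ 0} ⊆ {i | a i k ≠ 0} ∪ {i | b i k ≠ 0} := by
      intro i hi
      by_contra hc
      simp only [Set.mem_union, Set.mem_ofPred_eq, not_or, not_not] at hc
      apply hi
      rw [Finsupp.add_apply, hc.1, hc.2, add_zero]
    have hf : ({i | a i k ≠ 0} ∪ {i | b i k ≠ 0}).Finite := (h2 k).1.union (h2' k).1
    exact ⟨hf.subset hs, (Set.ncard_le_ncard hs hf).trans
      ((Set.ncard_union_le _ _).trans (add_le_add (h2 k).2 (h2' k).2))⟩
  · rw [Finsupp.add_apply]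
    exact (norm_add_le _ _).trans (add_le_add (h3 i k) (h3' i k))

lemma Bd.sum {ι ι' κ : Type} (s : Finset κ) (a : κ → ι → (ι' →₀ ℂ))
    (h : ∀ x ∈ s, Bd (a x)) : Bd (fun i => ∑ x ∈ s, a x i) := by
  classical
  induction s using Finset.induction_on with
  | empty => simpa using (Bd.zero (ι := ι) (ι' := ι'))
  | insert x s hx ih =>
    have h1 : (fun i => ∑ y ∈ insert x s, a y i) = fun i => a x i + ∑ y ∈ s, a y i := by
      funext i
      rw [Finset.sum_insert hx]
    rw [h1]
    exact (h x (Finset.mem_insert_self _ _)).add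
      (ih fun y hy => h y (Finset.mem_insert_of_mem hy))

lemma Bd.mono {ι ι' : Type} {a b : ι → (ι' →₀ ℂ)} (ha : Bd a) (hb : ∀ i, b i = a i ∨ b i = 0) :
    Bd b := by
  obtain ⟨K, C, hC, h1, h2, h3⟩ := ha
  refine ⟨K, C, hC, fun i => ?_, fun k => ?_, fun i k => ?_⟩
  · rcases hb i with h | h
    · rw [h]
      exact h1 i
    · rw [h]
      simp
  · have hs : {i | b i k ≠ 0} ⊆ {i | a i k ≠ 0} := by
      intro i hi
      rcases hb i with h | h
      · simpa only [Set.mem_ofPred_eq, h] using hi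
      · exact absurd (by rw [h]; rfl) hi
    exact ⟨(h2 k).1.subset hs, (Set.ncard_le_ncard hs (h2 k).1).trans (h2 k).2⟩
  · rcases hb i with h | h
    · rw [h]
      exact h3 i k
    · rw [h]
      simpa using hC

lemma Bd.map {ι ι' ι'' : Type} {a : ι → (ι' →₀ ℂ)} (ha : Bd a) (f : ι' → ι'')
    (hf : Function.Injective f) : Bd (fun i => (a i).mapDomain f) := by
  classical
  obtain ⟨K, C, hC, h1, h2, h3⟩ := ha
  refine ⟨K, C, hC, fun i => ?_, fun k => ?_, fun i k => ?_⟩
  · exact (Finset.card_le_card Finsupp.mapDomain_support).trans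
      (Finset.card_image_le.trans (h1 i))
  · by_cases hk : k ∈ Set.range f
    · obtain ⟨k', rfl⟩ := hk
      have he : {i | (a i).mapDomain f (f k') ≠ 0} = {i | a i k' ≠ 0} := by
        ext i
        rw [Set.mem_ofPred_eq, Set.mem_ofPred_eq, Finsupp.mapDomain_apply hf]
      rw [he]
      exact h2 k'
    · have he : {i | (a i).mapDomain f k ≠ 0} = ∅ := by
        ext i
        rw [Set.mem_ofPred_eq, Finsupp.mapDomain_of_notMem_range _ _ hk]
        simp
      rw [he]
      simp
  · by_cases hk : k ∈ Set.range f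
    · obtain ⟨k', rfl⟩ := hk
      rw [Finsupp.mapDomain_apply hf]
      exact h3 i k'
    · rw [Finsupp.mapDomain_of_notMem_range _ _ hk]
      simpa using hC

lemma Bd.star {ι ι' : Type} {a : ι → (ι' →₀ ℂ)} (ha : Bd a) :
    Bd (fun i => (a i).mapRange star (star_zero ℂ)) := by
  classical
  obtain ⟨K, C, hC, h1, h2, h3⟩ := ha
  refine ⟨K, C, hC, fun i => ?_, fun k => ?_, fun i k => ?_⟩
  · exact (Finset.card_le_card Finsupp.support_mapRange).trans (h1 i)
  · have he : {i | (a i).mapRange Star.star (star_zero ℂ) k ≠ 0} = {i | a i k ≠ 0} := by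
      ext i
      rw [Set.mem_ofPred_eq, Set.mem_ofPred_eq, Finsupp.mapRange_apply]
      exact star_ne_zero
    rw [he]
    exact h2 k
  · rw [Finsupp.mapRange_apply, norm_star]
    exact h3 i k

lemma Bd.col {ι₀ ι ι' : Type} (a : ι → (ι' →₀ ℂ)) (g : ι₀ → ι)
    (h0 : ∀ i, i ∉ Set.range g → a i = 0) (h : Bd (fun i => a (g i))) : Bd a := by
  classical
  obtain ⟨K, C, hC, h1, h2, h3⟩ := h
  refine ⟨K, C, hC, fun i => ?_, fun k => ?_, fun i k => ?_⟩
  · by_cases hi : i ∈ Set.range g
    · obtain ⟨i', rfl⟩ := hi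
      exact h1 i'
    · rw [h0 i hi]
      simp
  · have hs : {i | a i k ≠ 0} ⊆ g '' {i | a (g i) k ≠ 0} := by
      intro i hi
      by_cases hr : i ∈ Set.range g
      · obtain ⟨i', rfl⟩ := hr
        exact ⟨i', hi, rfl⟩
      · exact absurd (by rw [h0 i hr]; rfl) hi
    have hf := (h2 k).1.image g
    exact ⟨hf.subset hs, (Set.ncard_le_ncard hs hf).trans
      ((Set.ncard_image_le (h2 k).1).trans (h2 k).2)⟩
  · by_cases hi : i ∈ Set.range g
    · obtain ⟨i', rfl⟩ := hi
      exact h3 i' k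
    · rw [h0 i hi]
      simpa using hC

lemma Bd.fin {ι ι' : Type} (a : ι → (ι' →₀ ℂ)) (S : Set ι) (hS : S.Finite)
    (h0 : ∀ i, i ∉ S → a i = 0) : Bd a := by
  classical
  refine ⟨S.ncard + ∑ i ∈ hS.toFinset, (a i).support.card,
    ∑ i ∈ hS.toFinset, ∑ k ∈ (a i).support, ‖a i k‖, by positivity,
    fun i => ?_, fun k => ?_, fun i k => ?_⟩
  · by_cases hi : i ∈ S
    · have h1 : (a i).support.card ≤ ∑ i ∈ hS.toFinset, (a i).support.card :=
        Finset.single_le_sum (f := fun i => (a i).support.card) (fun _ _ => Nat.zero_le _)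
          (hS.mem_toFinset.mpr hi)
      exact h1.trans (Nat.le_add_left _ _)
    · rw [h0 i hi]
      simp
  · have hs : {i | a i k ≠ 0} ⊆ S := by
      intro i hi
      by_contra hc
      exact hi (by rw [h0 i hc]; rfl)
    exact ⟨hS.subset hs, (Set.ncard_le_ncard hs hS).trans (Nat.le_add_right _ _)⟩
  · by_cases hi : i ∈ S
    · have h1 : ∑ k ∈ (a i).support, ‖a i k‖ ≤
          ∑ i ∈ hS.toFinset, ∑ k ∈ (a i).support, ‖a i k‖ :=
        Finset.single_le_sum (f := fun i => ∑ k ∈ (a i).support, ‖a i k‖)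
          (fun _ _ => by positivity) (hS.mem_toFinset.mpr hi)
      refine le_trans ?_ h1
      by_cases hk : k ∈ (a i).support
      · exact Finset.single_le_sum (f := fun k => ‖a i k‖) (fun _ _ => norm_nonneg _) hk
      · rw [Finsupp.notMem_support_iff.mp hk, norm_zero]
        positivity
    · rw [h0 i hi, Finsupp.zero_apply, norm_zero]
      positivity

section

variable {n : ℕ} {L : Type} [Ring L] [Algebra ℂ L] [StarRing L] [StarModule ℂ L]

/-- Right multiplication by a letter shifts the word. -/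
lemma cf_mul_x [Nontrivial L] (h1 : StA1) (h2 : StA3) (D : Sys n L) (y : L) (hy : y ∈ D.S)
    (i : Fin n) :
    D.cf (y * D.x i) = (D.cf y).mapDomain (fun μ => μ ++ [i]) := by
  obtain ⟨-, hce, hec, -⟩ := h2 n L D
  have hw := (h1 n L D).1
  have hx : D.x i = D.w [i] := by
    simp [Sys.w, wd]
  have key : ∀ p : W n →₀ ℂ, D.emb p * D.x i = D.emb (p.mapDomain (fun μ => μ ++ [i])) := by
    intro p
    unfold Sys.emb
    rw [Finsupp.linearCombination_mapDomain, Finsupp.linearCombination_apply,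
      Finsupp.linearCombination_apply, Finsupp.sum, Finsupp.sum, Finset.sum_mul]
    refine Finset.sum_congr rfl fun μ _ => ?_
    rw [smul_mul_assoc, hx]
    simp only [Function.comp_apply]
    rw [hw]
  have h3 : y * D.x i = D.emb ((D.cf y).mapDomain (fun μ => μ ++ [i])) := by
    rw [← key, hec y hy]
  rw [h3, hce]

lemma acol_band [Nontrivial L] (h1 : StA1) (h2 : StA3) (h4 : StD2) (D : Sys n L) (j : ℤ) :
    ∃ l : ℕ, Bd (fun ν : W n => if l ≤ ν.length then D.acol j ν else 0) := by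
  classical
  choose l K C hC hcol hrow using fun i : Fin n => h4 n L D (star (D.b.p j (D.x i)))
  refine ⟨∑ i, l i, ?_⟩
  have hl : ∀ i, l i ≤ ∑ i, l i := fun i =>
    Finset.single_le_sum (f := l) (fun _ _ => Nat.zero_le _) (Finset.mem_univ i)
  have hb : ∀ i : Fin n, Bd (fun ν : W n => if l i ≤ ν.length then
      D.cf (star (D.b.p j (D.x i)) * D.w ν) else 0) := by
    intro i
    refine ⟨K i, C i, hC i, fun ν => ?_, fun μ => ?_, fun ν μ => ?_⟩
    · beta_reduce
      split_ifs with h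
      · exact (hcol i ν h).2.1
      · simp
    · have he : {ν : W n | (if l i ≤ ν.length then
          D.cf (star (D.b.p j (D.x i)) * D.w ν) else 0) μ ≠ 0} =
          {ν : W n | l i ≤ ν.length ∧ D.cf (star (D.b.p j (D.x i)) * D.w ν) μ ≠ 0} := by
        ext ν
        rw [Set.mem_ofPred_eq, Set.mem_ofPred_eq]
        split_ifs with h
        · simp [h]
        · simp [h]
      rw [he]
      exact hrow i μ
    · beta_reduce
      split_ifs with h
      · exact (hcol i ν h).2.2 μ
      · simpa using hC i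
  have hb2 : ∀ i : Fin n, Bd (fun ν : W n => if ∑ i, l i ≤ ν.length then
      (D.cf (star (D.b.p j (D.x i)) * D.w ν)).mapDomain (fun μ => μ ++ [i]) else 0) := by
    intro i
    refine ((hb i).map (fun μ : W n => μ ++ [i]) (List.append_left_injective [i])).mono ?_
    intro ν
    by_cases h : ∑ i, l i ≤ ν.length
    · left
      rw [if_pos h, if_pos ((hl i).trans h)]
    · right
      rw [if_neg h]
  have hb3 := Bd.sum Finset.univ _ fun i (_ : i ∈ (Finset.univ : Finset (Fin n))) => hb2 i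
  convert hb3 using 1
  funext ν
  by_cases h : ∑ i, l i ≤ ν.length
  · simp only [if_pos h]
    unfold Sys.acol
    rw [map_sum]
    refine Finset.sum_congr rfl fun i _ => ?_
    exact cf_mul_x h1 h2 D _ (hcol i ν ((hl i).trans h)).1 i
  · simp only [if_neg h]
    simp

end

lemma fin_ilen' (n r k : ℕ) : {i : Idx n r | ilen i < k}.Finite := by
  have h : {i : Idx n r | ilen i < k} ⊆
      ((fun ν : W n => (Sum.inl (Sum.inl ν) : Idx n r)) '' {ν : W n | ν.length < k}) ∪
      ((fun ν : W n => (Sum.inl (Sum.inr ν) : Idx n r)) '' {ν : W n | ν.length < k}) ∪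
      Set.range (fun a : Fin r => (Sum.inr a : Idx n r)) := by
    intro i hi
    rcases i with (ν | ν) | a
    · exact Or.inl (Or.inl ⟨ν, hi, rfl⟩)
    · exact Or.inl (Or.inr ⟨ν, hi, rfl⟩)
    · exact Or.inr ⟨a, rfl⟩
  refine Set.Finite.subset ?_ h
  exact (((List.finite_length_lt (Fin n) k).image _).union
    ((List.finite_length_lt (Fin n) k).image _)).union (Set.finite_range _)

section

variable {n : ℕ} {L : Type} [Ring L] [Algebra ℂ L] [StarRing L] [StarModule ℂ L]

lemma F_band [Nontrivial L] (h1 : StA1) (h2 : StA3) (h4 : StD2) (D : Sys n L) (X0 : Set L)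
    (m : MData n L) (hm : IsModel D X0 m) (j : ℤ) (hj : j ∈ m.Z) : Bd (m.F j) := by
  classical
  obtain ⟨l, hl⟩ := acol_band h1 h2 h4 D j
  set N : ℕ := max m.M2 l with hN
  have hN1 : m.M2 ≤ N := le_max_left _ _
  have hN2 : l ≤ N := le_max_right _ _
  have hN3 : 1 ≤ N := hm.M1.trans (hm.MM.trans hN1)
  let A1 : Idx n m.r → (Idx n m.r →₀ ℂ) := fun i =>
    if ∃ ν : W n, i = Sum.inl (Sum.inl ν) ∧ N ≤ ν.length then m.F j i else 0
  let A2 : Idx n m.r → (Idx n m.r →₀ ℂ) := fun i =>
    if ∃ ν : W n, i = Sum.inl (Sum.inr ν) ∧ N ≤ ν.length then m.F j i else 0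
  let A3 : Idx n m.r → (Idx n m.r →₀ ℂ) := fun i => if ilen i < N then m.F j i else 0
  have b1 : Bd A1 := by
    refine Bd.col A1 (fun ν : W n => Sum.inl (Sum.inl ν)) ?_ ?_
    · intro i hi
      refine if_neg ?_
      rintro ⟨ν, rfl, -⟩
      exact hi ⟨ν, rfl⟩
    · refine (hl.map (fun μ : W n => (Sum.inl (Sum.inl μ) : Idx n m.r))
        (Sum.inl_injective.comp Sum.inl_injective)).mono ?_
      intro ν
      by_cases h : N ≤ ν.length
      · left
        have hc : ∃ ν' : W n, (Sum.inl (Sum.inl ν) : Idx n m.r) = Sum.inl (Sum.inl ν') ∧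
            N ≤ ν'.length := ⟨ν, rfl, h⟩
        show (if _ then _ else _) = _
        rw [if_pos hc, if_pos (hN2.trans h), hm.long1 j hj ν (hN1.trans h)]
      · right
        refine if_neg ?_
        rintro ⟨ν', h1, h2⟩
        simp only [Sum.inl.injEq] at h1
        rw [h1] at h
        exact h h2
  have b2 : Bd A2 := by
    refine Bd.col A2 (fun ν : W n => Sum.inl (Sum.inr ν)) ?_ ?_
    · intro i hi
      refine if_neg ?_
      rintro ⟨ν, rfl, -⟩
      exact hi ⟨ν, rfl⟩
    · refine (hl.star.map (fun μ : W n => (Sum.inl (Sum.inr μ) : Idx n m.r))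
        (Sum.inl_injective.comp Sum.inr_injective)).mono ?_
      intro ν
      by_cases h : N ≤ ν.length
      · left
        have hc : ∃ ν' : W n, (Sum.inl (Sum.inr ν) : Idx n m.r) = Sum.inl (Sum.inr ν') ∧
            N ≤ ν'.length := ⟨ν, rfl, h⟩
        show (if _ then _ else _) = _
        rw [if_pos hc, if_pos (hN2.trans h), hm.long2 j hj ν (hN1.trans h)]
      · right
        refine if_neg ?_
        rintro ⟨ν', h1, h2⟩
        simp only [Sum.inl.injEq, Sum.inr.injEq] at h1
        rw [h1] at h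
        exact h h2
  have b3 : Bd A3 := by
    refine Bd.fin A3 _ (fin_ilen' n m.r N) ?_
    intro i hi
    exact if_neg hi
  have he : m.F j = fun i => A1 i + A2 i + A3 i := by
    funext i
    show m.F j i = (if _ then _ else _) + (if _ then _ else _) + (if _ then _ else _)
    rcases i with (ν | ν) | a
    · by_cases h : N ≤ ν.length
      · rw [if_pos ⟨ν, rfl, h⟩, if_neg (by rintro ⟨ν', h1, -⟩; simp at h1),
          if_neg (by simpa [ilen] using h), add_zero, add_zero]
      · rw [if_neg (by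
            rintro ⟨ν', h1, h2⟩
            simp only [Sum.inl.injEq] at h1
            exact h (h1 ▸ h2)),
          if_neg (by rintro ⟨ν', h1, -⟩; simp at h1),
          if_pos (by simpa [ilen] using h), zero_add, zero_add]
    · by_cases h : N ≤ ν.length
      · rw [if_neg (by rintro ⟨ν', h1, -⟩; simp at h1), if_pos ⟨ν, rfl, h⟩,
          if_neg (by simpa [ilen] using h), add_zero, zero_add]
      · rw [if_neg (by rintro ⟨ν', h1, -⟩; simp at h1), if_neg (by
            rintro ⟨ν', h1, h2⟩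
            simp only [Sum.inl.injEq, Sum.inr.injEq] at h1
            exact h (h1 ▸ h2)),
          if_pos (by simpa [ilen] using h), zero_add, zero_add]
    · rw [if_neg (by rintro ⟨ν', h1, -⟩; simp at h1),
        if_neg (by rintro ⟨ν', h1, -⟩; simp at h1), zero_add, zero_add,
        if_pos (show ilen (Sum.inr a : Idx n m.r) < N from hN3)]
  rw [he]
  exact (b1.add b2).add b3

end

/-- Lipschitz bound for powers. -/
lemma zpow_lip (c : ℝ) (hc : 0 < c) (j : ℤ) :
    ∃ C : ℝ, 0 ≤ C ∧ ∀ t : ℝ, c ≤ t → t ≤ 1 → |t ^ j - 1| ≤ C * (1 - t) := by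
  have hn : ∀ k : ℕ, ∃ C : ℝ, 0 ≤ C ∧ ∀ t : ℝ, c ≤ t → t ≤ 1 → |t ^ k - 1| ≤ C * (1 - t) := by
    intro k
    induction k with
    | zero => exact ⟨0, le_rfl, fun t _ _ => by simp⟩
    | succ k ih =>
      obtain ⟨C, hC, h⟩ := ih
      refine ⟨C + 1, by positivity, fun t h1 h2 => ?_⟩
      have h3 := h t h1 h2
      have h0 : 0 < t := lt_of_lt_of_le hc h1
      have h4 : t ^ (k + 1) - 1 = t * (t ^ k - 1) + (t - 1) := by ring
      rw [h4]
      calc |t * (t ^ k - 1) + (t - 1)| ≤ |t * (t ^ k - 1)| + |t - 1| := abs_add_le _ _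
        _ = t * |t ^ k - 1| + (1 - t) := by
            rw [abs_mul, abs_of_pos h0, abs_of_nonpos (by linarith : t - 1 ≤ 0)]
            ring
        _ ≤ 1 * (C * (1 - t)) + (1 - t) := by
            refine add_le_add ?_ le_rfl
            exact mul_le_mul h2 h3 (abs_nonneg _) (by norm_num)
        _ = (C + 1) * (1 - t) := by ring
  rcases j with k | k
  · obtain ⟨C, hC, h⟩ := hn k
    exact ⟨C, hC, fun t h1 h2 => by simpa using h t h1 h2⟩
  · obtain ⟨C, hC, h⟩ := hn (k + 1)
    refine ⟨(c ^ (k + 1))⁻¹ * C, by positivity, fun t h1 h2 => ?_⟩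
    have h0 : 0 < t := lt_of_lt_of_le hc h1
    have h3 := h t h1 h2
    rw [zpow_negSucc]
    have h4 : (t ^ (k + 1))⁻¹ - 1 = (t ^ (k + 1))⁻¹ * (-(t ^ (k + 1) - 1)) := by
      have : t ^ (k + 1) ≠ 0 := by positivity
      field_simp
      ring
    rw [h4, abs_mul, abs_neg, abs_of_pos (by positivity : 0 < (t ^ (k + 1))⁻¹), mul_assoc]
    refine mul_le_mul ?_ h3 (abs_nonneg _) (by positivity)
    exact inv_anti₀ (by positivity) (pow_le_pow_left₀ hc.le h1 _)

theorem hD3 (h1 : StA1) (h2 : StA3) (h3 : StD1) (h4 : StD2) : StD3 := by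
  intro n L _ _ _ _ _ D X0 m hm
  classical
  have hb : ∀ j ∈ m.Z, Bd (m.F j) := fun j hj => F_band h1 h2 h4 D X0 m hm j hj
  have hT : ∀ j : ℤ, ∃ T : L2 (Idx n m.r) →L[ℂ] L2 (Idx n m.r), j ∈ m.Z → IsOp T (m.F j) := by
    intro j
    by_cases hj : j ∈ m.Z
    · obtain ⟨K, C, hC, g1, g2, g3⟩ := hb j hj
      obtain ⟨T, hT, -⟩ := h3 _ _ (m.F j) K C hC g1 g2 g3
      exact ⟨T, fun _ => hT⟩
    · exact ⟨0, fun h => absurd h hj⟩
  choose T hT using hT
  refine ⟨fun t => ∑ j ∈ m.Z, ((t : ℂ) ^ j) • T j, ?_, ?_, ?_⟩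
  · refine continuousOn_finsetSum _ fun j _ => ?_
    have hz : ContinuousOn (fun t : ℝ => (t : ℂ) ^ j) (Set.Ioi 0) := by
      refine ContinuousOn.zpow₀ Complex.continuous_ofReal.continuousOn _ ?_
      intro t ht
      left
      exact Complex.ofReal_ne_zero.mpr (ne_of_gt ht)
    exact hz.smul continuousOn_const
  · intro t ht z k
    have e1 : ((∑ j ∈ m.Z, ((t : ℂ) ^ j) • T j) z) k =
        ∑ j ∈ m.Z, (t : ℂ) ^ j * ((T j z) k) := by
      rw [_root_.sum_apply, lp.coeFn_sum, Finset.sum_apply]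
      refine Finset.sum_congr rfl fun j _ => ?_
      simp
    rw [e1]
    have e2 : ∀ i : Idx n m.r, m.Fc t i k * z i =
        ∑ j ∈ m.Z, (t : ℂ) ^ j * (m.F j i k * z i) := by
      intro i
      unfold MData.Fc
      rw [Finsupp.finsetSum_apply, Finset.sum_mul]
      refine Finset.sum_congr rfl fun j _ => ?_
      rw [Finsupp.smul_apply, smul_eq_mul, mul_assoc]
    rw [finsum_congr e2]
    have hfin : ∀ j ∈ m.Z, (Function.support fun i : Idx n m.r => m.F j i k * z i).Finite := by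
      intro j hj
      obtain ⟨K, C, hC, g1, g2, g3⟩ := hb j hj
      refine (g2 k).1.subset ?_
      intro i hi h0
      apply hi
      show m.F j i k * z i = 0
      rw [show m.F j i k = 0 from h0, zero_mul]
    rw [finsum_sum_comm]
    · refine Finset.sum_congr rfl fun j hj => ?_
      rw [hT j hj z k, mul_finsum]
    · intro j hj
      refine (hfin j hj).subset ?_
      intro i hi h0
      exact hi (by
        show (t : ℂ) ^ j * (m.F j i k * z i) = 0
        have h0' : m.F j i k * z i = 0 := h0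
        rw [h0', mul_zero])
  · intro c hc
    choose C hC hl using zpow_lip c hc
    refine ⟨∑ j ∈ m.Z, C j * ‖T j‖, fun t h5 h6 => ?_⟩
    have e1 : (∑ j ∈ m.Z, ((t : ℂ) ^ j) • T j) - (∑ j ∈ m.Z, (((1 : ℝ) : ℂ) ^ j) • T j) =
        ∑ j ∈ m.Z, (((t ^ j - 1 : ℝ)) : ℂ) • T j := by
      rw [← Finset.sum_sub_distrib]
      refine Finset.sum_congr rfl fun j _ => ?_
      rw [← sub_smul]
      congr 1
      push_cast
      simp
    show ‖(∑ j ∈ m.Z, ((t : ℂ) ^ j) • T j) - (∑ j ∈ m.Z, (((1 : ℝ) : ℂ) ^ j) • T j)‖ ≤ _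
    rw [e1, Finset.sum_mul]
    refine (norm_sum_le _ _).trans (Finset.sum_le_sum fun j _ => ?_)
    rw [norm_smul, Complex.norm_real, Real.norm_eq_abs]
    calc |t ^ j - 1| * ‖T j‖ ≤ (C j * (1 - t)) * ‖T j‖ :=
          mul_le_mul_of_nonneg_right (hl j t h5 h6) (norm_nonneg _)
      _ = C j * ‖T j‖ * (1 - t) := by ring

end Pool.Agent.Helper41.SI
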