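import Pool.Agent.Helper99.SI.StK

set_option autoImplicit false

/-!
# Project SI, module K10
-/

namespace Pool.Agent.Helper41.SI

open Pool.Agent.Helper99.SI

/-- coordinates modulo a subspace of finite codimension in S -/
theorem exists_coord {L : Type} [AddCommGroup L] [Module ℂ L] (S U : Submodule ℂ L) (F : Set L) (hF : F.Finite)
    (hFS : F ⊆ S) (hS : S ≤ Submodule.span ℂ F ⊔ U) :
    ∃ (c : ℕ) (e : Fin c → L) (a : L →ₗ[ℂ] (Fin c → ℂ)), c ≤ hF.toFinset.card ∧ (∀ j, e j ∈ S) ∧
      (∀ u ∈ U, a u = 0) ∧ ∀ s ∈ S, s - ∑ j, a s j • e j ∈ U := by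
  classical
  set Q' : Submodule ℂ (L ⧸ U) := S.map U.mkQ with hQ'
  have hQF : Q' ≤ Submodule.span ℂ (U.mkQ '' F) := by
    rw [hQ', Submodule.map_le_iff_le_comap]
    refine hS.trans (sup_le ?_ ?_)
    · rw [Submodule.span_le]
      intro x hx
      exact Submodule.subset_span ⟨x, hx, rfl⟩
    · intro u hu
      change U.mkQ u ∈ Submodule.span ℂ (U.mkQ '' F)
      have h0 : U.mkQ u = 0 := (Submodule.Quotient.mk_eq_zero U).2 hu
      rw [h0]
      exact Submodule.zero_mem _
  have hfin : (U.mkQ '' F).Finite := hF.image _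
  have : Module.Finite ℂ (Submodule.span ℂ (U.mkQ '' F)) :=
    Module.Finite.iff_fg.2 (Submodule.fg_span hfin)
  have : FiniteDimensional ℂ Q' := Submodule.finiteDimensional_of_le hQF
  have hcard : Module.finrank ℂ Q' ≤ hF.toFinset.card := by
    have h1 : Module.finrank ℂ Q' ≤ Module.finrank ℂ (Submodule.span ℂ (U.mkQ '' F)) :=
      Submodule.finrank_mono hQF
    have h2 : Module.finrank ℂ (Submodule.span ℂ ((hF.toFinset.image U.mkQ : Finset (L ⧸ U)) : Set (L ⧸ U))) ≤
        (hF.toFinset.image U.mkQ).card := finrank_span_finset_le_card _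
    have h3 : ((hF.toFinset.image U.mkQ : Finset (L ⧸ U)) : Set (L ⧸ U)) = U.mkQ '' F := by
      rw [Finset.coe_image, Set.Finite.coe_toFinset]
    rw [h3] at h2
    exact h1.trans (h2.trans Finset.card_image_le)
  set b := Module.finBasis ℂ Q' with hb
  have hlift : ∀ j, ∃ s ∈ S, U.mkQ s = (b j : L ⧸ U) := by
    intro j
    have h : ((b j : Q') : L ⧸ U) ∈ S.map U.mkQ := (b j).2
    exact Submodule.mem_map.1 h
  choose e heS heb using hlift
  obtain ⟨g, hg⟩ := LinearMap.exists_extend (b.equivFun : Q' →ₗ[ℂ] (Fin (Module.finrank ℂ Q') → ℂ))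
  refine ⟨Module.finrank ℂ Q', e, g ∘ₗ U.mkQ, hcard, heS, ?_, ?_⟩
  · intro u hu
    rw [LinearMap.comp_apply]
    have h0 : U.mkQ u = 0 := (Submodule.Quotient.mk_eq_zero U).2 hu
    rw [h0, map_zero]
  · intro s hs
    have hsQ : U.mkQ s ∈ Q' := Submodule.mem_map_of_mem hs
    have h1 : (g ∘ₗ U.mkQ) s = b.equivFun ⟨U.mkQ s, hsQ⟩ := by
      have := congrArg (fun f => f ⟨U.mkQ s, hsQ⟩) hg
      exact this
    rw [← Submodule.Quotient.mk_eq_zero U]
    change U.mkQ (s - ∑ j, (g ∘ₗ U.mkQ) s j • e j) = 0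
    rw [map_sub, map_sum, sub_eq_zero]
    simp only [map_smul, heb, h1]
    have h2 := congrArg (fun x : Q' => (x : L ⧸ U)) (b.sum_equivFun ⟨U.mkQ s, hsQ⟩)
    simp only [Submodule.coe_sum, Submodule.coe_smul] at h2
    exact h2.symm

variable {n : ℕ} {L : Type} [Ring L] [Algebra ℂ L] [StarRing L] (D : Sys n L)

/-- the sum of f(ν) star (w (ν l)) over the words of length less than m -/
noncomputable def H (l : Fin n) : ℕ → (W n → ℂ) → L
  | 0, _ => 0
  | m + 1, f => f [] • star (D.x l) + ∑ i, H l m (fun ν => f (i :: ν)) * star (D.x i)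

/-- the sum of σ(s w_ν) star (w ν) over the words of length m -/
noncomputable def Rm (σ : L →ₗ[ℂ] L) : ℕ → L → L
  | 0, s => σ s
  | m + 1, s => ∑ i, Rm σ m (s * D.x i) * star (D.x i)

theorem w_nil : D.w [] = 1 := rfl

theorem w_cons' (i : Fin n) (μ : W n) : D.w (i :: μ) = D.x i * D.w μ := by
  unfold Sys.w wd
  rw [List.map_cons, List.prod_cons]

theorem w_snoc (i : Fin n) (μ : W n) : D.w (μ ++ [i]) = D.w μ * D.x i := by
  unfold Sys.w wd
  rw [List.map_append, List.prod_append, List.map_singleton, List.prod_singleton]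

theorem w_mem (μ : W n) : D.w μ ∈ D.S := Submodule.subset_span ⟨μ, rfl⟩

theorem H_add (l : Fin n) (m : ℕ) (f g : W n → ℂ) :
    H D l m (fun ν => f ν + g ν) = H D l m f + H D l m g := by
  induction m generalizing f g with
  | zero => exact (add_zero 0).symm
  | succ m ih =>
    unfold H
    simp only [ih, add_mul, Finset.sum_add_distrib, add_smul]
    abel

theorem H_smul (l : Fin n) (m : ℕ) (c : ℂ) (f : W n → ℂ) :
    H D l m (fun ν => c * f ν) = c • H D l m f := by
  induction m generalizing f with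
  | zero => exact (smul_zero c).symm
  | succ m ih =>
    unfold H
    simp only [ih, smul_add, Finset.smul_sum, smul_mul_assoc, mul_smul]

theorem H_zero (l : Fin n) (m : ℕ) : H D l m (fun _ => 0) = 0 := by
  induction m with
  | zero => rfl
  | succ m ih =>
    unfold H
    simp [ih]

theorem H_stable (l : Fin n) (m : ℕ) (f : W n → ℂ) (hf : ∀ ν : W n, m ≤ ν.length → f ν = 0) :
    H D l (m + 1) f = H D l m f := by
  induction m generalizing f with
  | zero =>
    unfold H
    rw [hf [] (Nat.zero_le _)]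
    simp [H]
  | succ m ih =>
    rw [H, H]
    congr 1
    refine Finset.sum_congr rfl fun i _ => ?_
    rw [ih]
    intro ν hν
    exact hf (i :: ν) (by rw [List.length_cons]; omega)

theorem H_mul_x (l i : Fin n) (m : ℕ) (f : W n → ℂ) (hf : ∀ ν : W n, m ≤ ν.length → f ν = 0) :
    H D l m f * D.x i - H D l m (fun ν => f (i :: ν)) ∈ D.S := by
  cases m with
  | zero =>
    simp only [H, zero_mul, sub_zero]
    exact Submodule.zero_mem _
  | succ m =>
    have h1 : H D l (m + 1) (fun ν => f (i :: ν)) = H D l m (fun ν => f (i :: ν)) :=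
      H_stable D l m _ fun ν hν => hf (i :: ν) (by rw [List.length_cons]; omega)
    have h2 : H D l (m + 1) f * D.x i = f [] • (star (D.x l) * D.x i) + H D l m (fun ν => f (i :: ν)) := by
      rw [H, add_mul, smul_mul_assoc, Finset.sum_mul]
      congr 1
      simp only [mul_assoc, D.orth]
      rw [Finset.sum_eq_single i]
      · rw [if_pos rfl, mul_one]
      · intro i' _ hne
        rw [if_neg hne, mul_zero]
      · intro h
        exact absurd (Finset.mem_univ i) h
    rw [h1, h2, add_sub_cancel_right, D.orth]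
    apply Submodule.smul_mem
    split_ifs
    · rw [← w_nil D]
      exact w_mem D []
    · exact Submodule.zero_mem _

theorem H_mul_w (hS : ∀ y ∈ D.S, ∀ z ∈ D.S, y * z ∈ D.S) (l : Fin n) (m : ℕ) (μ : W n) (f : W n → ℂ)
    (hf : ∀ ν : W n, m ≤ ν.length → f ν = 0) :
    H D l m f * D.w μ - H D l m (fun ν => f (μ ++ ν)) ∈ D.S := by
  induction μ generalizing f with
  | nil =>
    rw [w_nil, mul_one]
    simp only [List.nil_append, sub_self]
    exact Submodule.zero_mem _
  | cons i μ ih =>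
    have h1 := H_mul_x D l i m f hf
    have h2 := ih (fun ν => f (i :: ν)) fun ν hν => hf (i :: ν) (by rw [List.length_cons]; omega)
    have h3 := Submodule.add_mem _ (hS _ h1 _ (w_mem D μ)) h2
    rw [w_cons']
    have h4 : (H D l m f * D.x i - H D l m fun ν => f (i :: ν)) * D.w μ +
        ((H D l m fun ν => f (i :: ν)) * D.w μ - H D l m fun ν => f (i :: (μ ++ ν))) =
        H D l m f * (D.x i * D.w μ) - H D l m fun ν => f (i :: (μ ++ ν)) := by
      rw [sub_mul, mul_assoc]
      abel
    rw [h4] at h3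
    exact h3

theorem Rm_zero (σ : L →ₗ[ℂ] L) (k : ℕ) (hσ : ∀ μ : W n, k ≤ μ.length → σ (D.w μ) = 0) (m : ℕ) (μ : W n)
    (h : k ≤ μ.length + m) : Rm D σ m (D.w μ) = 0 := by
  induction m generalizing μ with
  | zero => exact hσ μ (by omega)
  | succ m ih =>
    unfold Rm
    refine Finset.sum_eq_zero fun i _ => ?_
    rw [← w_snoc, ih, zero_mul]
    rw [List.length_append, List.length_singleton]
    omega

theorem hK10 (h1 : StA0) (h2 : StA1) (h3 : StA3) (h4 : StA5) : StK10 := by
  intro n L _ _ _ _ _ D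
  obtain ⟨hSS, -, hSU, -, -, -⟩ := h4 n L D
  have hFin : {μ : W n | μ.length < D.m0}.Finite := List.finite_length_lt (Fin n) D.m0
  have hFinL : (D.w '' {μ : W n | μ.length < D.m0}).Finite := hFin.image _
  refine ⟨hFinL.toFinset.card * n + 1, fun z hz => ?_⟩
  obtain ⟨-, hmul, hone, -⟩ := h1 L D.b
  set β := D.b.ev z with hβ
  have hSx : ∀ s ∈ D.S, ∀ i, s * D.x i ∈ D.S := by
    intro s hs i
    have h := hSS s hs (D.w [i]) (w_mem D [i])
    have h' : D.w [i] = D.x i := by rw [w_cons', w_nil, mul_one]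
    rwa [h'] at h
  -- the right ideal
  let U : Submodule ℂ L :=
    { carrier := {s | s ∈ D.S ∧ ∀ μ : W n, β (D.w μ) * s ∈ D.S}
      add_mem' := fun {a b} ha hb => ⟨Submodule.add_mem _ ha.1 hb.1, fun μ => by
        rw [mul_add]; exact Submodule.add_mem _ (ha.2 μ) (hb.2 μ)⟩
      zero_mem' := ⟨Submodule.zero_mem _, fun μ => by rw [mul_zero]; exact Submodule.zero_mem _⟩
      smul_mem' := fun c a ha => ⟨Submodule.smul_mem _ _ ha.1, fun μ => by
        rw [mul_smul_comm]; exact Submodule.smul_mem _ _ (ha.2 μ)⟩ }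
  have hUS : ∀ u ∈ U, u ∈ D.S := fun u hu => hu.1
  have hUx : ∀ u ∈ U, ∀ i, u * D.x i ∈ U := by
    intro u hu i
    refine ⟨hSx u hu.1 i, fun μ => ?_⟩
    rw [← mul_assoc]
    exact hSx _ (hu.2 μ) i
  have hUw : ∀ u ∈ U, ∀ μ : W n, u * D.w μ ∈ U := by
    intro u hu μ
    refine ⟨hSS u hu.1 _ (w_mem D μ), fun κ => ?_⟩
    rw [← mul_assoc]
    exact hSS _ (hu.2 κ) _ (w_mem D μ)
  have hβU : ∀ u ∈ U, ∀ a : W n, β (D.w a) * u ∈ U := by
    intro u hu a
    refine ⟨hu.2 a, fun μ => ?_⟩
    rw [← mul_assoc, hβ, ← hmul z _ _ hz, ← (h2 n L D).1 μ a]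
    exact hu.2 (μ ++ a)
  have hlong : ∀ μ : W n, D.m0 ≤ μ.length → D.w μ ∈ U := by
    intro μ hμ
    refine ⟨w_mem D μ, fun κ => ?_⟩
    have h5 : D.w μ ∈ D.Sge D.m0 := Submodule.subset_span ⟨μ, hμ, rfl⟩
    have h6 : β (D.w κ) * D.w μ = ∑ᶠ j : ℤ, z ^ j • (D.b.p j (D.w κ) * D.w μ) := by
      have h7 : β (D.w κ) = ∑ᶠ j : ℤ, z ^ j • D.b.p j (D.w κ) := rfl
      rw [h7, finsum_mul' _ _ (D.b.fin' _ _)]
      refine finsum_congr fun j => ?_
      rw [smul_mul_assoc]
    rw [h6]
    exact finsum_induction (fun x => x ∈ D.S) (Submodule.zero_mem _) (fun x y hx hy => Submodule.add_mem _ hx hy)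
      (fun j => Submodule.smul_mem _ _ (hSU _ (w_mem D κ) _ h5 j))
  -- coordinates
  obtain ⟨c, e, a, hc, heS, haU, hsub⟩ := exists_coord D.S U (D.w '' {μ : W n | μ.length < D.m0}) hFinL
    (by rintro _ ⟨μ, -, rfl⟩; exact w_mem D μ)
    (by
      unfold Sys.S
      rw [Submodule.span_le]
      rintro _ ⟨μ, rfl⟩
      by_cases hμ : μ.length < D.m0
      · exact Submodule.mem_sup_left (Submodule.subset_span ⟨μ, hμ, rfl⟩)
      · exact Submodule.mem_sup_right (hlong μ (not_lt.1 hμ)))
  let σ : L →ₗ[ℂ] L := ∑ j, (LinearMap.toSpanSingleton ℂ L (e j)) ∘ₗ (LinearMap.proj j) ∘ₗ a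
  have hσ : ∀ s, σ s = ∑ j, a s j • e j := by
    intro s
    simp [σ, LinearMap.sum_apply]
  have hσU : ∀ u ∈ U, σ u = 0 := by
    intro u hu
    rw [hσ, haU u hu]
    simp
  have hσS : ∀ s ∈ D.S, s - σ s ∈ U := by
    intro s hs
    rw [hσ]
    exact hsub s hs
  have hσx : ∀ s ∈ D.S, ∀ i, σ (σ s * D.x i) = σ (s * D.x i) := by
    intro s hs i
    have h5 := hσU _ (hUx _ (hσS s hs) i)
    rw [sub_mul, map_sub, sub_eq_zero] at h5
    exact h5.symm
  -- the dual basis
  let u : Fin c → Fin n → L := fun j l => e j * D.x l - σ (e j * D.x l)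
  have huU : ∀ j l, u j l ∈ U := fun j l => hσS _ (hSx _ (heS j) l)
  have hu : ∀ s ∈ D.S, ∀ l, ∑ j, a s j • u j l = σ s * D.x l - σ (s * D.x l) := by
    intro s hs l
    rw [← hσx s hs l, hσ s, Finset.sum_mul, map_sum, ← Finset.sum_sub_distrib]
    refine Finset.sum_congr rfl fun j _ => ?_
    rw [smul_mul_assoc, map_smul, ← smul_sub]
  have hsum : ∀ (m : ℕ) (s : L), s ∈ D.S →
      ∑ j, ∑ l, u j l * H D l m (fun ν => a (s * D.w ν) j) = σ s - Rm D σ m s := by
    intro m
    induction m with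
    | zero =>
      intro s _
      simp [H, Rm]
    | succ m ih =>
      intro s hs
      have h5 : ∀ j l, u j l * H D l (m + 1) (fun ν => a (s * D.w ν) j) =
          (a s j • u j l) * star (D.x l) +
            ∑ i, u j l * H D l m (fun ν => a (s * D.x i * D.w ν) j) * star (D.x i) := by
        intro j l
        rw [H, mul_add, Finset.mul_sum, w_nil, mul_one, mul_smul_comm, smul_mul_assoc]
        congr 1
        refine Finset.sum_congr rfl fun i _ => ?_
        rw [← mul_assoc]
        simp only [w_cons', mul_assoc]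
      have h6 : ∑ j, ∑ l, (a s j • u j l) * star (D.x l) = σ s - ∑ l, σ (s * D.x l) * star (D.x l) := by
        rw [Finset.sum_comm]
        have h7 : ∀ l, ∑ j, (a s j • u j l) * star (D.x l) =
            σ s * (D.x l * star (D.x l)) - σ (s * D.x l) * star (D.x l) := by
          intro l
          rw [← Finset.sum_mul, hu s hs l, sub_mul, mul_assoc]
        rw [Finset.sum_congr rfl fun l _ => h7 l, Finset.sum_sub_distrib, ← Finset.mul_sum, D.comp, mul_one]
      have h8 : ∑ j, ∑ l, ∑ i, u j l * H D l m (fun ν => a (s * D.x i * D.w ν) j) * star (D.x i) =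
          ∑ i, (σ (s * D.x i) - Rm D σ m (s * D.x i)) * star (D.x i) := by
        have h9 : ∀ i, (σ (s * D.x i) - Rm D σ m (s * D.x i)) * star (D.x i) =
            ∑ j, ∑ l, u j l * H D l m (fun ν => a (s * D.x i * D.w ν) j) * star (D.x i) := by
          intro i
          rw [← ih (s * D.x i) (hSx s hs i), Finset.sum_mul]
          refine Finset.sum_congr rfl fun j _ => ?_
          rw [Finset.sum_mul]
        rw [Finset.sum_congr rfl fun i _ => h9 i]
        calc ∑ j, ∑ l, ∑ i, u j l * H D l m (fun ν => a (s * D.x i * D.w ν) j) * star (D.x i) =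
            ∑ j, ∑ i, ∑ l, u j l * H D l m (fun ν => a (s * D.x i * D.w ν) j) * star (D.x i) :=
              Finset.sum_congr rfl fun j _ => Finset.sum_comm
          _ = _ := Finset.sum_comm
      simp only [h5, Finset.sum_add_distrib]
      rw [h6, h8, Rm]
      simp only [sub_mul, Finset.sum_sub_distrib]
      abel
  have hRm : Rm D σ D.m0 1 = 0 := by
    rw [← w_nil D]
    exact Rm_zero D σ D.m0 (fun μ hμ => hσU _ (hlong μ hμ)) D.m0 [] (by simp)
  have h1S : (1 : L) ∈ D.S := by
    rw [← w_nil D]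
    exact w_mem D []
  have hgh : ∑ j, ∑ l, u j l * H D l D.m0 (fun ν => a (D.w ν) j) = σ 1 := by
    have h5 := hsum D.m0 1 h1S
    rw [hRm, sub_zero] at h5
    simp only [one_mul] at h5
    exact h5
  -- left multiplication
  have hHU : ∀ j l, ∀ v ∈ U, H D l D.m0 (fun ν => a (D.w ν) j) * v ∈ D.S := by
    intro j l v hv
    let T : L →ₗ[ℂ] L :=
      { toFun := fun s => H D l D.m0 (fun ν => a (D.w ν) j) * s - H D l D.m0 (fun ν => a (s * D.w ν) j)
        map_add' := fun s t => by
          have h5 : (fun ν => a ((s + t) * D.w ν) j) = fun ν => a (s * D.w ν) j + a (t * D.w ν) j := by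
            funext ν
            rw [add_mul, map_add, Pi.add_apply]
          rw [h5, H_add, mul_add]
          abel
        map_smul' := fun r s => by
          have h5 : (fun ν => a ((r • s) * D.w ν) j) = fun ν => r * a (s * D.w ν) j := by
            funext ν
            rw [smul_mul_assoc, map_smul, Pi.smul_apply, smul_eq_mul]
          rw [h5, H_smul, mul_smul_comm, RingHom.id_apply, smul_sub] }
    have hT : D.S ≤ D.S.comap T := by
      conv_lhs => unfold Sys.S
      rw [Submodule.span_le]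
      rintro _ ⟨μ, rfl⟩
      change H D l D.m0 (fun ν => a (D.w ν) j) * D.w μ - H D l D.m0 (fun ν => a (D.w μ * D.w ν) j) ∈ D.S
      have h5 := H_mul_w D hSS l D.m0 μ (fun ν => a (D.w ν) j)
        (fun ν hν => by
          have := haU _ (hlong ν hν)
          simp only [this]
          rfl)
      have h6 : (fun ν => a (D.w μ * D.w ν) j) = fun ν => a (D.w (μ ++ ν)) j := by
        funext ν
        rw [(h2 n L D).1 μ ν]
      rw [h6]
      exact h5
    have h7 : T v ∈ D.S := hT (hUS v hv)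
    have h8 : (fun ν => a (v * D.w ν) j) = fun _ => 0 := by
      funext ν
      rw [haU _ (hUw v hv ν)]
      rfl
    change H D l D.m0 (fun ν => a (D.w ν) j) * v - H D l D.m0 (fun ν => a (v * D.w ν) j) ∈ D.S at h7
    rw [h8, H_zero, sub_zero] at h7
    exact h7
  -- assembly
  let ι := Option (Fin c × Fin n)
  let g' : ι → L := fun o => Option.elim o (1 - σ 1) fun q => u q.1 q.2
  let h' : ι → L := fun o => Option.elim o 1 fun q => H D q.2 D.m0 (fun ν => a (D.w ν) q.1)
  let E : ι ≃ Fin (Fintype.card ι) := Fintype.equivFin ι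
  refine ⟨Fintype.card ι, ?_, fun p => g' (E.symm p), fun p => h' (E.symm p), ?_, ?_⟩
  · have h5 : Fintype.card ι = c * n + 1 := by
      simp [ι, Fintype.card_option, Fintype.card_prod]
    rw [h5]
    exact Nat.add_le_add_right (Nat.mul_le_mul_right n hc) 1
  · rw [E.symm.sum_comp (fun o => g' o * h' o), Fintype.sum_option, Fintype.sum_prod_type]
    change (1 - σ 1) * 1 + ∑ j, ∑ l, u j l * H D l D.m0 (fun ν => a (D.w ν) j) = 1
    rw [hgh, mul_one, sub_add_cancel]
  · intro μ p q
    have hgU : g' (E.symm q) ∈ U := by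
      cases E.symm q with
      | none => exact hσS 1 h1S
      | some o => exact huU o.1 o.2
    have hv := hβU _ hgU μ
    rw [mul_assoc]
    change h' (E.symm p) * (β (D.w μ) * g' (E.symm q)) ∈ D.S
    cases E.symm p with
    | none =>
      change 1 * (β (D.w μ) * g' (E.symm q)) ∈ D.S
      rw [one_mul]
      exact hUS _ hv
    | some o => exact hHU o.1 o.2 _ hv

end Pool.Agent.Helper41.SI
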