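import Pool.Agent.Helper99.SI.StM

set_option autoImplicit false

/-!
# Project SI, module M6
-/

namespace Pool.Agent.Helper41.SI

open LaurentPolynomial
open Pool.Agent.Helper99.SI

/-- extension of an independent family with saturated span by finitely many vectors -/
theorem exists_basis_ext {R V ι : Type} [CommRing R] [IsDomain R] [IsPrincipalIdealRing R] [AddCommGroup V] [Module R V]
    (f : ι → V) (hf : LinearIndependent R f) (P Y : Submodule R V) (hP : P = Submodule.span R (Set.range f)) (hPY : P ≤ Y)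
    (Fs : Set V) (hFs : Fs.Finite) (hY : Y ≤ P ⊔ Submodule.span R Fs)
    (hsat : ∀ (a : R) (w : V), a ≠ 0 → a • w ∈ P → w ∈ P) :
    ∃ (r : ℕ) (b : Fin r → V) (B : Module.Basis (ι ⊕ Fin r) R Y), ∀ i, ((B i : Y) : V) = Sum.elim f b i := by
  have hker : ∀ v : V, P.mkQ v = 0 ↔ v ∈ P := fun v => Submodule.Quotient.mk_eq_zero P
  set Q : Submodule R (V ⧸ P) := Y.map P.mkQ with hQ
  have hQF : Q ≤ Submodule.span R (P.mkQ '' Fs) := by
    rw [hQ, Submodule.map_le_iff_le_comap]
    refine hY.trans (sup_le ?_ ?_)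
    · intro v hv
      change P.mkQ v ∈ Submodule.span R (P.mkQ '' Fs)
      rw [(hker v).2 hv]
      exact Submodule.zero_mem _
    · rw [Submodule.span_le]
      intro x hx
      exact Submodule.subset_span ⟨x, hx, rfl⟩
  have hN : IsNoetherian R (Submodule.span R (P.mkQ '' Fs)) := isNoetherian_span_of_finite R (hFs.image _)
  have hfg : Q.FG := isNoetherian_submodule.1 hN Q hQF
  have : Module.Finite R Q := Module.Finite.iff_fg.2 hfg
  have hTF : Module.IsTorsionFree R (V ⧸ P) := by
    apply Module.IsTorsionFree.of_smul_eq_zero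
    intro a q h
    obtain ⟨w, rfl⟩ := P.mkQ_surjective q
    by_cases ha : a = 0
    · exact Or.inl ha
    · right
      rw [← map_smul, hker] at h
      exact (hker w).2 (hsat a w ha h)
  have hTFQ : Module.IsTorsionFree R Q :=
    Function.Injective.moduleIsTorsionFree (fun q : Q => (q : V ⧸ P)) Subtype.val_injective (fun _ _ => rfl)
  have hfree : Module.Free R Q := Module.free_of_finite_type_torsion_free'
  set c := Module.finBasis R Q with hc
  have hlift : ∀ j, ∃ s ∈ Y, P.mkQ s = ((c j : Q) : V ⧸ P) := by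
    intro j
    have h : ((c j : Q) : V ⧸ P) ∈ Y.map P.mkQ := (c j).2
    exact Submodule.mem_map.1 h
  choose b hbY hbc using hlift
  have hfP : ∀ i, f i ∈ P := fun i => by rw [hP]; exact Submodule.subset_span ⟨i, rfl⟩
  have hli : LinearIndependent R (Sum.elim f b) := by
    have h1 : LinearIndependent R (fun i => (⟨f i, hfP i⟩ : P)) := by
      apply LinearIndependent.of_comp P.subtype
      exact hf
    have h2 : LinearIndependent R (Submodule.Quotient.mk (p := P) ∘ b) := by
      have h3 : (Submodule.Quotient.mk (p := P) ∘ b) = fun j => ((c j : Q) : V ⧸ P) := by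
        funext j
        exact hbc j
      rw [h3]
      exact c.linearIndependent.map' Q.subtype Q.ker_subtype
    exact LinearIndependent.sumElim_of_quotient h1 b h2
  have hmem : ∀ i, Sum.elim f b i ∈ Y := by
    intro i
    cases i with
    | inl i => exact hPY (hfP i)
    | inr j => exact hbY j
  let F : ι ⊕ Fin (Module.finrank R Q) → Y := fun i => ⟨Sum.elim f b i, hmem i⟩
  have hF : LinearIndependent R F := by
    apply LinearIndependent.of_comp Y.subtype
    exact hli
  have hspan : ⊤ ≤ Submodule.span R (Set.range F) := by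
    intro y _
    have h1 : (y : V) ∈ Submodule.span R (Set.range (Sum.elim f b)) := by
      have hyQ : P.mkQ (y : V) ∈ Q := Submodule.mem_map_of_mem y.2
      have h2 : P.mkQ ((y : V) - ∑ j, c.equivFun ⟨P.mkQ y, hyQ⟩ j • b j) = 0 := by
        rw [map_sub, map_sum, sub_eq_zero]
        simp only [map_smul, hbc]
        have h3 := congrArg (fun x : Q => (x : V ⧸ P)) (c.sum_equivFun ⟨P.mkQ y, hyQ⟩)
        simp only [Submodule.coe_sum, Submodule.coe_smul] at h3
        exact h3.symm
      have h4 := (hker _).1 h2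
      have h5 : P ≤ Submodule.span R (Set.range (Sum.elim f b)) := by
        refine hP.le.trans ?_
        apply Submodule.span_mono
        rintro _ ⟨i, rfl⟩
        exact ⟨Sum.inl i, rfl⟩
      have h6 : ∑ j, c.equivFun ⟨P.mkQ y, hyQ⟩ j • b j ∈ Submodule.span R (Set.range (Sum.elim f b)) := by
        refine Submodule.sum_mem _ fun j _ => Submodule.smul_mem _ _ (Submodule.subset_span ⟨Sum.inr j, rfl⟩)
      have h7 := Submodule.add_mem _ (h5 h4) h6
      rwa [sub_add_cancel] at h7
    have h8 : Set.range (Sum.elim f b) = Y.subtype '' Set.range F := by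
      rw [← Set.range_comp]
      rfl
    rw [h8, ← Submodule.map_span] at h1
    obtain ⟨x, hx, hxy⟩ := h1
    have h9 : x = y := Subtype.ext hxy
    rwa [h9] at hx
  exact ⟨_, b, Module.Basis.mk hF hspan, fun i => by rw [Module.Basis.mk_apply]⟩

theorem bt_one {L : Type} [Ring L] [Algebra ℂ L] [StarRing L] (B : ZGr L) : B.bt 1 = 1 := by
  ext j
  rw [ZGr.bt_coeff]
  have h1 : B.p j 1 = if j = 0 then 1 else 0 := by
    have h := B.pp j 0 1
    rwa [B.one] at h
  rw [h1]
  have h2 : ((1 : LL L)).coeff j = if j = 0 then (1 : L) else 0 := by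
    rw [AddMonoidAlgebra.one_def, AddMonoidAlgebra.coeff_single, Finsupp.single_apply]
    simp only [eq_comm]
  rw [h2]

theorem hM6 (h1 : StM2) (h2 : StM3) (h3 : StM5) : StM6 := by
  intro n L _ _ _ _ _ D X0 M hX0 hX hone hpos
  obtain ⟨hdom, hpir⟩ := h1
  obtain ⟨Fs, hFs⟩ := h2 n L D X0 hX0 hX M
  obtain ⟨hli, hsat⟩ := h3 n L D M hpos
  have hwnil : D.w [] = 1 := rfl
  have hP : D.PN M = Submodule.span AA (Set.range (Sum.elim (fun ν : {ν : W n // M ≤ ν.length} => D.b.bt (D.w ν.1))
      (fun ν : {ν : W n // M ≤ ν.length} => (C (star (D.w ν.1)) : LL L)))) := by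
    unfold Sys.PN
    congr 1
    rw [Set.Sum.elim_range]
    congr 1
    · ext y
      constructor
      · rintro ⟨ν, hν, rfl⟩
        exact ⟨⟨ν, hν⟩, rfl⟩
      · rintro ⟨ν, rfl⟩
        exact ⟨ν.1, ν.2, rfl⟩
    · ext y
      constructor
      · rintro ⟨ν, hν, rfl⟩
        exact ⟨⟨ν, hν⟩, rfl⟩
      · rintro ⟨ν, rfl⟩
        exact ⟨ν.1, ν.2, rfl⟩
  have hPY : D.PN M ≤ D.YY X0 := by
    unfold Sys.PN
    rw [Submodule.span_le]
    rintro y (⟨ν, -, rfl⟩ | ⟨ν, -, rfl⟩)
    · refine Submodule.subset_span ⟨1, hone, [], ν, ?_⟩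
      rw [hwnil, star_one, map_one, one_mul, one_mul]
    · refine Submodule.subset_span ⟨1, hone, ν, [], ?_⟩
      rw [hwnil, bt_one, map_one, mul_one, mul_one]
  obtain ⟨r, b, B, hB⟩ := exists_basis_ext _ hli (D.PN M) (D.YY X0) hP hPY (Fs : Set (LL L)) Fs.finite_toSet hFs hsat
  exact ⟨r, ⟨⟨b, B, hB⟩⟩⟩

end Pool.Agent.Helper41.SI
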