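import Pool.Agent.Helper80.SI.StN

set_option autoImplicit false

/-!
# Project SI, module N3
-/

namespace Pool.Agent.Helper41.SI

open Pool.Agent.Helper99.SI Pool.Agent.Helper80.SI Filter Topology

theorem Fc_apply {n : ℕ} {L : Type} (m : MData n L) (t : ℝ) (i' i : Idx n m.r) :
    m.Fc t i' i = ∑ j ∈ m.Z, (t : ℂ) ^ j * m.F j i' i := by
  unfold MData.Fc
  rw [Finsupp.finset_sum_apply]
  refine Finset.sum_congr rfl fun j _ => ?_
  rw [Finsupp.smul_apply, smul_eq_mul]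

theorem tendsto_Fc {n : ℕ} {L : Type} (m : MData n L) (t : ℕ → ℝ) (ht : Tendsto t atTop (𝓝 1)) (i' i : Idx n m.r) :
    Tendsto (fun k => m.Fc (t k) i' i) atTop (𝓝 (m.Fc 1 i' i)) := by
  simp only [Fc_apply]
  refine tendsto_finset_sum _ fun j _ => ?_
  refine Tendsto.mul_const _ ?_
  have h1 : Tendsto (fun k => ((t k : ℝ) : ℂ)) atTop (𝓝 ((1 : ℝ) : ℂ)) :=
    (Complex.continuous_ofReal.tendsto 1).comp ht
  refine h1.zpow₀ j (Or.inl ?_)
  rw [Complex.ofReal_one]
  exact one_ne_zero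

theorem hN3 : StN3 := by
  intro n L _ _ _ _ _ D X0 m s t zz z σ τ hM hL i
  obtain ⟨c, hc⟩ := hM.band
  set T := (fin_ilen (n := n) (r := m.r) (ilen i + c)).toFinset with hT
  have hsum : ∀ (t : ℝ) (y : Idx n m.r → ℂ), ∑ᶠ i' : Idx n m.r, m.Fc t i' i * y i' = ∑ i' ∈ T, m.Fc t i' i * y i' := by
    intro t y
    apply finsum_eq_sum_of_support_subset
    intro i' hi'
    rw [hT, Set.Finite.coe_toFinset]
    rw [Function.mem_support] at hi'
    by_contra hcon
    apply hi'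
    have h1 : m.Fc t i' i = 0 := by
      rw [Fc_apply]
      refine Finset.sum_eq_zero fun j _ => ?_
      by_cases h2 : m.F j i' i = 0
      · rw [h2, mul_zero]
      · exact absurd (hc j i' i h2).2 hcon
    rw [h1, zero_mul]
  have h1 : Tendsto (fun k => (s k : ℂ) * ∑ i' ∈ T, m.Fc (t k) i' i * zz k i') atTop
      (𝓝 (((1 : ℝ) : ℂ) * ∑ i' ∈ T, m.Fc 1 i' i * z i')) := by
    refine Tendsto.mul ((Complex.continuous_ofReal.tendsto 1).comp hL.sl) ?_
    refine tendsto_finset_sum _ fun i' _ => ?_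
    exact (tendsto_Fc m t hL.tl i' i).mul (hL.lim i')
  have h2 : (fun k => (s k : ℂ) * ∑ i' ∈ T, m.Fc (t k) i' i * zz k i') = fun k => zz k i := by
    funext k
    rw [← hsum]
    exact (hL.ker k i).symm
  rw [h2] at h1
  rw [hsum]
  exact tendsto_nhds_unique (hL.lim i) h1

end Pool.Agent.Helper41.SI
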